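import Pool.Agent.L0h18.HZ.Defs

/-! Project HZ, module DENS (helper61). -/

set_option autoImplicit false
set_option linter.all false

namespace Pool.Agent.L0h61.HZ

open Pool.Agent.Y167 (Sys cone)
open Pool.Agent.N165.KM (IntL)
open Pool.Agent.L0h18.HZ
open Topology

variable {A : Type} [Ring A] [Algebra ℝ A] {r ρ : ℕ} {S : Sys A r}
  {Φ : (Fin ρ → ℝ) →ₗ[ℝ] A}

theorem exists_psi (H : Herm S Φ) : ∃ Ψ : A →ₗ[ℝ] (Fin ρ → ℝ), (∀ x, Ψ (Φ x) = x) ∧
    ∀ a, S.st a = a → Φ (Ψ a) = a := by
  obtain ⟨Ψ, hΨ⟩ := LinearMap.exists_leftInverse_of_injective Φ (LinearMap.ker_eq_bot.2 H.inj)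
  have h1 : ∀ x, Ψ (Φ x) = x := fun x => LinearMap.congr_fun hΨ x
  refine ⟨Ψ, h1, fun a ha => ?_⟩
  obtain ⟨x, rfl⟩ := (H.range a).1 ha
  rw [h1]

theorem st_conj {h : A} (hh : S.st h = h) (y : A) : S.st (S.st y * h * y) = S.st y * h * y := by
  rw [S.st_mul, S.st_mul, S.st_st, hh, mul_assoc]

theorem isUnit_of_det {z : A} (hz : (S.mat z).det ≠ 0) : IsUnit z := by
  have hu : IsUnit (S.mat z).det := isUnit_iff_ne_zero.2 hz
  set x : A := S.vec.symm (Matrix.mulVec (S.mat z)⁻¹ (S.vec 1)) with hx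
  have h1 : z * x = 1 := by
    apply S.vec.injective
    rw [← S.mat_vec, hx, LinearEquiv.apply_symm_apply, Matrix.mulVec_mulVec,
      Matrix.mul_nonsing_inv _ hu, Matrix.one_mulVec]
  have h2 : x * z = 1 := by
    apply S.mat_inj
    rw [map_mul, map_one]
    apply mul_eq_one_comm.1
    rw [← map_mul, h1, map_one]
  exact ⟨⟨z, x, h1, h2⟩, rfl⟩

theorem dense_unit (S : Sys A r) :
    Dense {c : Fin r → ℝ | (S.mat (S.bas.equivFun.symm c)).det ≠ 0} := by
  intro c
  set M := S.mat (S.bas.equivFun.symm c) with hM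
  set P : Polynomial ℝ := (-M).charpoly with hP
  have hP0 : P ≠ 0 := (Matrix.charpoly_monic _).ne_zero
  have hfin : {t : ℝ | P.eval t = 0}.Finite := by
    have : {t : ℝ | P.eval t = 0} = (P.roots.toFinset : Set ℝ) := by
      ext t
      simp [Polynomial.mem_roots hP0, Polynomial.IsRoot]
    rw [this]
    exact Finset.finite_toSet _
  have hd : Dense {t : ℝ | P.eval t = 0}ᶜ := hfin.countable.dense_compl ℝ
  have hf : Continuous fun t : ℝ => c + t • S.bas.equivFun (1 : A) := by fun_prop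
  have hm : ∀ t ∈ {t : ℝ | P.eval t = 0}ᶜ, c + t • S.bas.equivFun (1 : A) ∈
      {c : Fin r → ℝ | (S.mat (S.bas.equivFun.symm c)).det ≠ 0} := by
    intro t ht h0
    apply ht
    rw [Set.mem_setOf_eq, hP, Matrix.eval_charpoly]
    have h1 : S.mat (S.bas.equivFun.symm (c + t • S.bas.equivFun (1 : A))) =
        M + t • (1 : Matrix (Fin r) (Fin r) ℝ) := by
      rw [map_add, map_smul, LinearEquiv.symm_apply_apply, map_add, map_smul, map_one]
    rw [h1] at h0
    rw [← h0]
    congr 1
    rw [sub_neg_eq_add, add_comm, Matrix.smul_one_eq_diagonal]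
    rfl
  have h := map_mem_closure hf (hd 0) hm
  simpa using h

theorem open_unit (S : Sys A r) :
    IsOpen {c : Fin r → ℝ | (S.mat (S.bas.equivFun.symm c)).det ≠ 0} := by
  have hc : Continuous fun c : Fin r → ℝ => (S.mat (S.bas.equivFun.symm c)).det := by
    have h1 : Continuous fun c : Fin r → ℝ => S.mat (S.bas.equivFun.symm c) :=
      LinearMap.continuous_of_finiteDimensional
        (S.mat.toLinearMap.comp S.bas.equivFun.symm.toLinearMap)
    exact h1.matrix_det
  exact isOpen_ne_fun hc continuous_const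

theorem dense_rat (r : ℕ) : Dense {c : Fin r → ℝ | ∀ i, ∃ q : ℚ, c i = q} := by
  have h : {c : Fin r → ℝ | ∀ i, ∃ q : ℚ, c i = q} =
      Set.pi Set.univ fun _ => Set.range ((↑) : ℚ → ℝ) := by
    ext c
    simp only [Set.mem_setOf_eq, Set.mem_pi, Set.mem_univ, true_implies, Set.mem_range]
    exact forall_congr' fun i => exists_congr fun q => eq_comm
  rw [h]
  exact dense_pi _ fun i _ => Rat.isDenseEmbedding_coe_real.dense

theorem dens : S_DENS := by
  intro A _ _ r ρ S Φ H D hD b₁ b₂ h hh hz z x' hx'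
  obtain ⟨Ψ, hΨ1, hΨ2⟩ := exists_psi H
  set Bil : A →ₗ[ℝ] A →ₗ[ℝ] (Fin ρ → ℝ) :=
    LinearMap.mk₂ ℝ (fun y y' => Ψ (S.st (b₁ * y * b₂) * h * (b₁ * y' * b₂)))
      (fun a b c => by rw [mul_add, add_mul, map_add, add_mul, add_mul, map_add])
      (fun a b c => by
        rw [mul_smul_comm, smul_mul_assoc, map_smul, smul_mul_assoc, smul_mul_assoc, map_smul])
      (fun a b c => by rw [mul_add, add_mul, mul_add, map_add])
      (fun a b c => by rw [mul_smul_comm, smul_mul_assoc, mul_smul_comm, map_smul]) with hBil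
  have hB : ∀ y y', Bil y y' = Ψ (S.st (b₁ * y * b₂) * h * (b₁ * y' * b₂)) := fun y y' => rfl
  have hΦ : ∀ y, Φ (Bil y y) = S.st (b₁ * y * b₂) * h * (b₁ * y * b₂) := fun y =>
    hΨ2 _ (st_conj hh _)
  set e := S.bas.equivFun with he
  have hcont : Continuous fun c : Fin r → ℝ => Bil (e.symm c) (e.symm c) := by
    have h1 : (fun c : Fin r → ℝ => Bil (e.symm c) (e.symm c)) =
        fun c => ∑ i, c i • Bil (S.bas i) (e.symm c) := by
      funext c
      have hc : e.symm c = ∑ i, c i • S.bas i := Module.Basis.equivFun_symm_apply _ _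
      refine (congrArg (fun y => Bil y (e.symm c)) hc).trans ?_
      simp only [map_sum, LinearMap.sum_apply, map_smul, LinearMap.smul_apply]
    rw [h1]
    refine continuous_finset_sum _ fun i _ => (continuous_apply i).smul ?_
    exact LinearMap.continuous_of_finiteDimensional ((Bil (S.bas i)).comp e.symm.toLinearMap)
  have hdense := (dense_unit S).inter_of_isOpen_left (dense_rat r) (open_unit S)
  have hmem : ∀ c ∈ {c : Fin r → ℝ | (S.mat (S.bas.equivFun.symm c)).det ≠ 0} ∩
      {c : Fin r → ℝ | ∀ i, ∃ q : ℚ, c i = q}, Bil (e.symm c) (e.symm c) ∈ D := by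
    rintro c ⟨hc1, hc2⟩
    choose q hq using hc2
    set N : ℕ := ∏ i, (q i).den with hN
    have hN0 : (N : ℝ) ≠ 0 := by
      rw [hN]
      push_cast
      exact Finset.prod_ne_zero_iff.2 fun i _ => Nat.cast_ne_zero.2 (q i).den_nz
    set y : A := e.symm ((N : ℝ) • c) with hy
    have hyc : y = (N : ℝ) • e.symm c := by rw [hy, map_smul]
    have hyR : y ∈ S.R := by
      rw [S.mem_R]
      intro i
      have h1 : S.bas.repr y i = (N : ℝ) * c i := by
        have : S.bas.equivFun y i = ((N : ℝ) • c) i := by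
          rw [hy, he, LinearEquiv.apply_symm_apply]
        exact this
      obtain ⟨k, hk⟩ := Finset.dvd_prod_of_mem (fun i => (q i).den) (Finset.mem_univ i)
      refine ⟨(k : ℤ) * (q i).num, ?_⟩
      rw [h1, hq i, hN, hk]
      have h2 : ((q i).den : ℝ) * (q i : ℝ) = (q i).num := by
        have := Rat.den_mul_eq_num (q i)
        exact_mod_cast this
      push_cast
      rw [← h2]
      ring
    have hyu : IsUnit y := by
      apply isUnit_of_det (S := S)
      rw [hyc, map_smul, Matrix.det_smul]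
      exact mul_ne_zero (pow_ne_zero _ hN0) hc1
    have h3 := hz y hyR hyu (Bil y y) (hΦ y)
    have h4 := hD.smul (((N : ℝ)⁻¹) ^ 2) (by positivity) _ h3
    have h5 : (((N : ℝ)⁻¹) ^ 2) • Bil y y = Bil (e.symm c) (e.symm c) := by
      rw [hyc]
      simp only [map_smul, LinearMap.smul_apply, smul_smul]
      have : (N : ℝ)⁻¹ ^ 2 * ((N : ℝ) * N) = 1 := by field_simp
      rw [this, one_smul]
    rwa [h5] at h4
  have hfin := map_mem_closure hcont (hdense (e z)) hmem
  rw [hD.closed.closure_eq, LinearEquiv.symm_apply_apply] at hfin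
  have : x' = Bil z z := H.inj (by rw [hx', hΦ])
  rw [this]
  exact hfin

end Pool.Agent.L0h61.HZ
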