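import Pool.Agent.L0h61.HZ.DENS

/-! Project HZ, module RIG1 (helper61). -/

set_option autoImplicit false
set_option linter.all false

namespace Pool.Agent.L0h61.HZ

open Pool.Agent.Y167 (Sys cone)
open Pool.Agent.N165.KM (IntL)
open Pool.Agent.L0h18.HZ
open Topology

/-- the preimage of a closed convex cone -/
theorem ccone_comap {ρ : ℕ} {D : Set (Fin ρ → ℝ)} (hD : CCone D)
    (T : (Fin ρ → ℝ) →ₗ[ℝ] (Fin ρ → ℝ)) : CCone {x | T x ∈ D} where
  closed := hD.closed.preimage (LinearMap.continuous_of_finiteDimensional T)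
  add := fun x hx z hz => by
    rw [Set.mem_setOf_eq, map_add]
    exact hD.add _ hx _ hz
  smul := fun t ht x hx => by
    rw [Set.mem_setOf_eq, map_smul]
    exact hD.smul t ht _ hx

theorem rig1 (hSEP : S_SEP) (hDENS : S_DENS) (hINV : S_INV) : S_RIG1 := by
  intro A _ _ r ρ S Φ H D hD hN hne
  obtain ⟨a0, ha0D, ha0⟩ := hne
  obtain ⟨x0, hx0R, hx00, m, pp, qq, hfull⟩ := H.nil
  obtain ⟨Ψ, hΨ1, hΨ2⟩ := exists_psi H
  set a : A := Φ a0 with ha
  have hPda : S.Pd a := ha0
  have hsa : S.st a = a := hPda.psd.sa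
  have nonneg_conj : ∀ (b c : A), S.st (c * b) = S.st b * S.st c := fun b c => S.st_mul c b
  -- the main step
  have main : ∀ u ∈ S.R, IsUnit u → ∀ p : A, S.Psd p → ∀ x', Φ x' =
      S.st (x0 * u) * p * (x0 * u) → x' ∈ D := by
    intro u hu huu p hp x' hx'
    obtain ⟨d, hd, v, hvR, huv, hvu⟩ := hINV A r S u hu huu
    set y : A := v * x0 * u with hy
    have hyR : y ∈ S.R := S.R.mul_mem (S.R.mul_mem hvR hx0R) hu
    have hdR : (d : ℝ) ≠ 0 := Int.cast_ne_zero.2 hd
    have hdA : ((d : ℤ) : A) = (d : ℝ) • (1 : A) := by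
      rw [← Algebra.algebraMap_eq_smul_one, map_intCast]
    have huv' : u * v = (d : ℝ) • (1 : A) := by rw [huv, hdA]
    have hyy : y * y = 0 := by
      have e1 : y * y = v * x0 * (u * v) * x0 * u := by rw [hy]; noncomm_ring
      rw [e1, huv']
      have e2 : v * x0 * ((d : ℝ) • (1 : A)) * x0 * u = (d : ℝ) • (v * (x0 * x0) * u) := by
        rw [mul_smul_comm, smul_mul_assoc, smul_mul_assoc]
        congr 1
        noncomm_ring
      rw [e2, hx00]
      simp
    have huyv : u * y * v = ((d : ℝ) ^ 2) • x0 := by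
      have e1 : u * y * v = (u * v) * x0 * (u * v) := by rw [hy]; noncomm_ring
      rw [e1, huv', smul_mul_assoc, smul_mul_assoc, mul_smul_comm, smul_smul, one_mul, mul_one,
        sq]
    have hyfull : Full y := by
      refine ⟨m, fun i => ((d : ℝ) ^ 2)⁻¹ • (pp i * u), fun i => v * qq i, ?_⟩
      rw [← hfull]
      refine Finset.sum_congr rfl fun i _ => ?_
      have e1 : ((d : ℝ) ^ 2)⁻¹ • (pp i * u) * y * (v * qq i) =
          ((d : ℝ) ^ 2)⁻¹ • (pp i * (u * y * v) * qq i) := by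
        rw [smul_mul_assoc, smul_mul_assoc]
        congr 1
        noncomm_ring
      rw [e1, huyv, mul_smul_comm, smul_mul_assoc, smul_smul,
        inv_mul_cancel₀ (pow_ne_zero 2 hdR), one_smul]
    -- all `y z y`
    have h1 : ∀ z : A, ∀ x', Φ x' = S.st (y * z * y) * a * (y * z * y) → x' ∈ D := by
      refine hDENS A r ρ S Φ H D hD y y a hsa ?_
      intro z hz _ x' hx'
      refine hN (y * z * y) (S.R.mul_mem (S.R.mul_mem hyR hz) hyR) ?_ a0 ha0D x' hx'
      have e1 : y * z * y * (y * z * y) = y * z * (y * y) * z * y := by noncomm_ring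
      rw [e1, hyy]
      simp
    -- the preimage cone
    set T : (Fin ρ → ℝ) →ₗ[ℝ] (Fin ρ → ℝ) :=
      { toFun := fun x => Ψ (S.st y * Φ x * y)
        map_add' := fun x x' => by rw [map_add, mul_add, add_mul, map_add]
        map_smul' := fun t x => by
          rw [map_smul, mul_smul_comm, smul_mul_assoc, map_smul, RingHom.id_apply] } with hT
    have hTΦ : ∀ x, Φ (T x) = S.st y * Φ x * y := by
      intro x
      exact hΨ2 _ (st_conj ((H.range (Φ x)).2 ⟨x, rfl⟩) y)
    have h2 : psd S Φ ⊆ {x | T x ∈ D} := by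
      refine hSEP A r ρ S Φ H _ (ccone_comap hD T) y a hyfull hPda ?_
      intro z x'' hx''
      refine h1 z (T x'') ?_
      rw [hTΦ, hx'', S.st_mul (y * z) y]
      simp only [mul_assoc]
    -- apply it to `st u p u`
    obtain ⟨x1, hx1⟩ : ∃ x1, Φ x1 = S.st u * p * u := by
      refine ⟨Ψ (S.st u * p * u), hΨ2 _ (st_conj hp.sa u)⟩
    have h3 : T x1 ∈ D := h2 (by
      show S.Psd (Φ x1)
      rw [hx1]
      exact hp.conj u)
    have h4 := hD.smul (((d : ℝ) ^ 2)⁻¹) (by positivity) _ h3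
    have h5 : x' = ((d : ℝ) ^ 2)⁻¹ • T x1 := by
      apply H.inj
      rw [map_smul, hTΦ, hx1, hx']
      have huy : u * y = (d : ℝ) • (x0 * u) := by
        have e1 : u * y = (u * v) * x0 * u := by rw [hy]; noncomm_ring
        rw [e1, huv', smul_mul_assoc, smul_mul_assoc, one_mul]
      have e2 : S.st y * (S.st u * p * u) * y = S.st (u * y) * p * (u * y) := by
        rw [S.st_mul u y]
        simp only [mul_assoc]
      rw [e2, huy, map_smul, smul_mul_assoc, smul_mul_assoc, mul_smul_comm, smul_smul, smul_smul]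
      have e3 : ((d : ℝ) ^ 2)⁻¹ * (d : ℝ) * (d : ℝ) = 1 := by field_simp
      rw [e3, one_smul]
    rw [h5]
    exact h4
  -- density again
  have h6 : ∀ z : A, ∀ x', Φ x' = S.st (x0 * z * 1) * 1 * (x0 * z * 1) → x' ∈ D := by
    refine hDENS A r ρ S Φ H D hD x0 1 1 S.st_one ?_
    intro z hz hzu x' hx'
    refine main z hz hzu 1 Pool.Agent.Y167.Sys.psd_one x' ?_
    rw [hx']
    simp only [mul_one]
  refine hSEP A r ρ S Φ H D hD x0 1 ⟨m, pp, qq, hfull⟩ Pool.Agent.Y167.Sys.pd_one ?_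
  intro z x' hx'
  refine h6 z x' ?_
  rw [hx']
  simp only [mul_one]

end Pool.Agent.L0h61.HZ
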